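import Mathlib

/-!
Levels for the orthants of an unconditional body built from a simplicial complex
(helper file for MP_eba1ef_gt.BoxComplexes).
-/

namespace Pool.Agent.Helper55.BC

open Finset

variable {ι : Type*} [Fintype ι] [DecidableEq ι]

/-- A simplicial complex containing all points. -/
def IsComplex (Δ : Set (Finset ι)) : Prop :=
  (∀ F ∈ Δ, ∀ G ⊆ F, G ∈ Δ) ∧ (∀ i, {i} ∈ Δ) ∧ ∅ ∈ Δ

/-- The local condition. -/
def BinaryOn (Δ : Set (Finset ι)) (W : Finset ι) : Prop :=
  ∃ (k : ℕ) (a : ι → Fin k → ZMod 2) (B : Finset ι), B ∈ Δ ∧ B ⊆ W ∧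
    LinearIndependent (ZMod 2) (fun i : B => a i) ∧
    (∀ i ∈ W, a i ∈ Submodule.span (ZMod 2) (a '' B)) ∧
    ∀ F ∈ Δ, F ⊆ W → ∃ U ⊆ F \ B,
      LinearIndependent (ZMod 2) (fun i : (U ∪ F ∩ B : Finset ι) => a i) ∧
      (∀ j ∈ B, j ∉ F → insert j (F \ U) ∈ Δ) ∧
      ∀ j ∈ W, j ∉ F → j ∉ B → insert j (F \ (U ∪ B)) ∈ Δ

/-- Level functions which serve all faces inside `W`. -/
def Serves (Δ : Set (Finset ι)) (D : ι → Type) (W : Finset ι)
    (pos : (∀ i, D i) → ι → ℕ) : Prop :=
  (∀ A A' : ∀ i, D i, (∀ i ∈ W, A i = A' i) → pos A = pos A') ∧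
  ∀ F ∈ Δ, F ⊆ W → ∀ P : ∀ i, D i, ∃ A : ∀ i, D i,
    (∀ i, (i ∈ F ∨ i ∉ W) → A i = P i) ∧
    ∀ j ∈ W, j ∉ F → insert j (F.filter fun i => pos A j ≤ pos A i) ∈ Δ

/-- One direction of the non-edge step. -/
theorem serve_aux {Δ : Set (Finset ι)} (hΔ : IsComplex Δ) {D : ι → Type}
    {W : Finset ι} {c : ι} {p₁ p : (∀ i, D i) → ι → ℕ}
    (H1 : Serves Δ D (W.erase c) p₁) (hcW : c ∈ W) {F : Finset ι} (hF : F ∈ Δ) (hFW : F ⊆ W)
    (hcF : c ∉ F) (P : ∀ i, D i)
    (Q : (∀ i, D i) → Prop)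
    (hQ : ∀ A : ∀ i, D i, ∃ d : D c, Q (Function.update A c d))
    (hp : ∀ A, Q A → p A = fun i => if i = c then 1 + ∑ k, p₁ A k else p₁ A i) :
    ∃ A : ∀ i, D i, (∀ i, (i ∈ F ∨ i ∉ W) → A i = P i) ∧
      ∀ j ∈ W, j ∉ F → insert j (F.filter fun i => p A j ≤ p A i) ∈ Δ := by
  obtain ⟨A, hA, hs⟩ := H1.2 F hF (fun i hi => mem_erase.2
    ⟨fun h => hcF (h ▸ hi), hFW hi⟩) P
  obtain ⟨d, hd⟩ := hQ A
  have hagree : ∀ i, i ≠ c → Function.update A c d i = A i := fun i hi =>
    Function.update_of_ne hi _ _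
  have hp1 : p₁ (Function.update A c d) = p₁ A := by
    apply H1.1
    intro i hi
    exact hagree i (mem_erase.1 hi).1
  refine ⟨Function.update A c d, ?_, ?_⟩
  · intro i hi
    have hic : i ≠ c := by
      rintro rfl
      rcases hi with h | h
      · exact hcF h
      · exact h hcW
    rw [hagree i hic]
    apply hA
    rcases hi with h | h
    · exact Or.inl h
    · exact Or.inr fun h' => h (mem_erase.1 h').2
  · intro j hj hjF
    rw [hp _ hd, hp1]
    by_cases hjc : j = c
    · subst hjc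
      have hempty : (F.filter fun i => (if j = j then 1 + ∑ k, p₁ A k else p₁ A j) ≤
          (if i = j then 1 + ∑ k, p₁ A k else p₁ A i)) = ∅ := by
        apply filter_eq_empty_iff.2
        intro i hi
        have hij : i ≠ j := fun h => hcF (h ▸ hi)
        simp only [if_true, if_neg hij, not_le]
        have : p₁ A i ≤ ∑ k, p₁ A k := single_le_sum (fun _ _ => Nat.zero_le _) (mem_univ i)
        omega
      rw [hempty]
      simpa using hΔ.2.1 j
    · have := hs j (mem_erase.2 ⟨hjc, hj⟩) hjF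
      have heq : (F.filter fun i => (if j = c then 1 + ∑ k, p₁ A k else p₁ A j) ≤
          (if i = c then 1 + ∑ k, p₁ A k else p₁ A i)) =
          F.filter fun i => p₁ A j ≤ p₁ A i := by
        apply filter_congr
        intro i hi
        have hij : i ≠ c := fun h => hcF (h ▸ hi)
        simp [hjc, hij]
      rw [heq]
      exact this

/-- The non-edge step. -/
theorem serves_step {Δ : Set (Finset ι)} (hΔ : IsComplex Δ) {D : ι → Type}
    (φ : ∀ i, D i → ZMod 2) (hφ : ∀ i, Function.Surjective (φ i))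
    {W : Finset ι} {c₁ c₂ : ι} (h1 : c₁ ∈ W) (h2 : c₂ ∈ W) (hne : c₁ ≠ c₂)
    (hnot : ({c₁, c₂} : Finset ι) ∉ Δ)
    {p₁ p₂ : (∀ i, D i) → ι → ℕ}
    (H1 : Serves Δ D (W.erase c₁) p₁) (H2 : Serves Δ D (W.erase c₂) p₂) :
    ∃ p, Serves Δ D W p := by
  classical
  refine ⟨fun A => if φ c₁ (A c₁) = φ c₂ (A c₂) then
    (fun i => if i = c₁ then 1 + ∑ k, p₁ A k else p₁ A i)
    else (fun i => if i = c₂ then 1 + ∑ k, p₂ A k else p₂ A i), ?_, ?_⟩
  · intro A A' hAA'
    have e1 : p₁ A = p₁ A' := H1.1 _ _ fun i hi => hAA' i (mem_erase.1 hi).2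
    have e2 : p₂ A = p₂ A' := H2.1 _ _ fun i hi => hAA' i (mem_erase.1 hi).2
    simp only [hAA' c₁ h1, hAA' c₂ h2, e1, e2]
  · intro F hF hFW P
    by_cases hc1 : c₁ ∈ F
    · have hc2 : c₂ ∉ F := by
        intro hc2
        apply hnot
        apply hΔ.1 F hF
        intro i hi
        rcases mem_insert.1 hi with rfl | hi
        · exact hc1
        · rw [mem_singleton.1 hi]; exact hc2
      refine serve_aux hΔ H2 h2 hF hFW hc2 P (fun A => φ c₁ (A c₁) ≠ φ c₂ (A c₂)) ?_ ?_
      · intro A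
        obtain ⟨d, hd⟩ := hφ c₂ (φ c₁ (A c₁) + 1)
        refine ⟨d, ?_⟩
        simp only [Function.update_self, Function.update_of_ne hne]
        rw [hd]
        intro h
        have hne2 : ∀ z : ZMod 2, ¬ z = z + 1 := by decide
        exact hne2 _ h
      · intro A hA
        simp only [if_neg hA]
    · refine serve_aux hΔ H1 h1 hF hFW hc1 P (fun A => φ c₁ (A c₁) = φ c₂ (A c₂)) ?_ ?_
      · intro A
        obtain ⟨d, hd⟩ := hφ c₁ (φ c₂ (A c₂))
        refine ⟨d, ?_⟩
        simp only [Function.update_self, Function.update_of_ne hne.symm]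
        exact hd
      · intro A hA
        simp only [if_pos hA]

omit [Fintype ι] in
/-- A functional with given values on independent vectors. -/
theorem exists_functional {k : ℕ} (a : ι → Fin k → ZMod 2) (S : Finset ι)
    (hS : LinearIndependent (ZMod 2) (fun i : S => a i)) (w : ι → ZMod 2) :
    ∃ l : (Fin k → ZMod 2) →ₗ[ZMod 2] ZMod 2, ∀ i ∈ S, l (a i) = w i := by
  let b := Module.Basis.span hS
  let f := b.constr (ZMod 2) (fun i : S => w i)
  obtain ⟨g, hg⟩ := LinearMap.exists_extend f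
  refine ⟨g, fun i hi => ?_⟩
  have h1 : (g ∘ₗ (Submodule.span (ZMod 2) (Set.range fun i : S => a i)).subtype) (b ⟨i, hi⟩) =
      f (b ⟨i, hi⟩) := by rw [hg]
  have h2 : ((b ⟨i, hi⟩ : Submodule.span (ZMod 2) (Set.range fun i : S => a i)) :
      Fin k → ZMod 2) = a i := by
    have := Module.Basis.span_apply hS ⟨i, hi⟩
    exact congrArg Subtype.val this
  have h3 : f (b ⟨i, hi⟩) = w i := by
    simp [f]
  rw [← h3, ← h1]
  simp [h2]

omit [Fintype ι] [DecidableEq ι] in
/-- Functionals which agree on a set agree on its span. -/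
theorem functional_unique {k : ℕ} (a : ι → Fin k → ZMod 2) (B : Finset ι)
    {l l' : (Fin k → ZMod 2) →ₗ[ZMod 2] ZMod 2} (h : ∀ i ∈ B, l (a i) = l' (a i))
    {x : Fin k → ZMod 2} (hx : x ∈ Submodule.span (ZMod 2) (a '' B)) : l x = l' x := by
  refine LinearMap.eqOn_span (s := a '' B) ?_ hx
  rintro _ ⟨i, hi, rfl⟩
  exact h i hi

/-- The base case. -/
theorem serves_base {Δ : Set (Finset ι)} (hΔ : IsComplex Δ) {D : ι → Type}
    (φ : ∀ i, D i → ZMod 2) (hφ : ∀ i, Function.Surjective (φ i))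
    {W : Finset ι} (hW : BinaryOn Δ W) : ∃ p, Serves Δ D W p := by
  classical
  obtain ⟨k, a, B, hBΔ, hBW, hBi, hsp, hF⟩ := hW
  choose L hL using fun A : ∀ i, D i => exists_functional a B hBi (fun i => φ i (A i))
  refine ⟨fun A i => if i ∈ B then 1 else if i ∈ W then
    (if φ i (A i) = L A (a i) then 2 else 0) else 0, ?_, ?_⟩
  · intro A A' hAA'
    have hLL : ∀ i ∈ W, L A (a i) = L A' (a i) := by
      intro i hi
      refine functional_unique a B ?_ (hsp i hi)
      intro i hi
      rw [hL A i hi, hL A' i hi, hAA' i (hBW hi)]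
    funext i
    by_cases hi : i ∈ B
    · simp [hi]
    · by_cases hiW : i ∈ W
      · simp only [hi, hiW, if_true, if_false, hAA' i hiW, hLL i hiW]
      · simp [hi, hiW]
  · intro F hFΔ hFW P
    obtain ⟨U, hU, hUi, h1, h2⟩ := hF F hFΔ hFW
    obtain ⟨l, hl⟩ := exists_functional a (U ∪ F ∩ B) hUi
      (fun i => φ i (P i) - if i ∈ B then 0 else 1)
    choose ψ hψ using fun i => hφ i
    refine ⟨fun i => if i ∈ F ∨ i ∉ W then P i else ψ i (l (a i)), ?_, ?_⟩
    · intro i hi
      simp [hi]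
    · have hne2 : ∀ z : ZMod 2, ¬ z = z - 1 := by decide
      set A : ∀ i, D i := fun i => if i ∈ F ∨ i ∉ W then P i else ψ i (l (a i)) with hA
      have hAin : ∀ i, i ∈ F → A i = P i := fun i hi => by simp [hA, hi]
      have hAout : ∀ i, i ∈ W → i ∉ F → φ i (A i) = l (a i) := by
        intro i hi hiF
        have : A i = ψ i (l (a i)) := by simp [hA, hi, hiF]
        rw [this]
        exact hψ i _
      have hLl : ∀ i ∈ W, L A (a i) = l (a i) := by
        intro i hi
        refine functional_unique a B ?_ (hsp i hi)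
        intro i hi
        rw [hL A i hi]
        by_cases hiF : i ∈ F
        · rw [hAin i hiF, hl i (mem_union_right _ (mem_inter.2 ⟨hiF, hi⟩))]
          simp [hi]
        · exact hAout i (hBW hi) hiF
      intro j hj hjF
      by_cases hjB : j ∈ B
      · apply hΔ.1 _ (h1 j hjB hjF)
        apply insert_subset_insert
        intro i hi
        rw [mem_filter] at hi
        rw [mem_sdiff]
        refine ⟨hi.1, fun hiU => ?_⟩
        have hiB : i ∉ B := (mem_sdiff.1 (hU hiU)).2
        have hiW : i ∈ W := hFW hi.1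
        have h3 := hi.2
        simp only [hjB, if_true, hiB, if_false, hiW, hLl i hiW] at h3
        rw [hAin i hi.1, hl i (mem_union_left _ hiU)] at h3
        simp [hiB, hne2] at h3
      · apply hΔ.1 _ (h2 j hj hjF hjB)
        apply insert_subset_insert
        intro i hi
        rw [mem_filter] at hi
        have h3 := hi.2
        simp only [hjB, if_false, hj, if_true, hLl j hj, hAout j hj hjF] at h3
        rw [mem_sdiff]
        refine ⟨hi.1, fun hiU => ?_⟩
        rcases mem_union.1 hiU with hiU | hiB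
        · have hiB : i ∉ B := (mem_sdiff.1 (hU hiU)).2
          have hiW : i ∈ W := hFW hi.1
          simp only [hiB, if_false, hiW, if_true, hLl i hiW] at h3
          rw [hAin i hi.1, hl i (mem_union_left _ hiU)] at h3
          simp [hiB, hne2] at h3
        · simp [hiB] at h3

/-- The combinatorial theorem. -/
theorem serves_exists {Δ : Set (Finset ι)} (hΔ : IsComplex Δ) {D : ι → Type}
    (φ : ∀ i, D i → ZMod 2) (hφ : ∀ i, Function.Surjective (φ i))
    (hloc : ∀ W : Finset ι, (∀ i ∈ W, ∀ j ∈ W, ({i, j} : Finset ι) ∈ Δ) → BinaryOn Δ W)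
    (W : Finset ι) : ∃ p, Serves Δ D W p := by
  classical
  induction W using Finset.strongInduction with
  | H W ih =>
    by_cases hW : ∀ i ∈ W, ∀ j ∈ W, ({i, j} : Finset ι) ∈ Δ
    · exact serves_base hΔ φ hφ (hloc W hW)
    · push Not at hW
      obtain ⟨i, hi, j, hj, hij⟩ := hW
      have hne : i ≠ j := by
        rintro rfl
        apply hij
        simpa using hΔ.2.1 i
      obtain ⟨p₁, H1⟩ := ih (W.erase i) (erase_ssubset hi)
      obtain ⟨p₂, H2⟩ := ih (W.erase j) (erase_ssubset hj)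
      exact serves_step hΔ φ hφ hi hj hne hij H1 H2

end Pool.Agent.Helper55.BC
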