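import Mathlib

/-!
Covering a convex body by translates of its interior: general lemmas
(helper file for MP_eba1ef_gt.BoxComplexes).
-/

namespace Pool.Agent.Helper55.BC

open Set Metric Topology

/-- `K` is covered by at most `N` translates of its interior. -/
def Covered {V : Type*} [TopologicalSpace V] [Add V] (N : ℕ) (K : Set V) : Prop :=
  ∃ T : Finset V, T.card ≤ N ∧ K ⊆ ⋃ t ∈ T, (fun x => t + x) '' interior K

section

variable {V : Type*} [NormedAddCommGroup V] [NormedSpace ℝ V]

theorem isCompact_convexJoin {A B : Set V} (hA : IsCompact A) (hB : IsCompact B) :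
    IsCompact (convexJoin ℝ A B) := by
  have h : convexJoin ℝ A B =
      (fun p : (V × V) × ℝ => (1 - p.2) • p.1.1 + p.2 • p.1.2) ''
        ((A ×ˢ B) ×ˢ Icc (0 : ℝ) 1) := by
    ext x
    simp only [mem_convexJoin, segment_eq_image, mem_image, mem_prod]
    constructor
    · rintro ⟨a, ha, b, hb, t, ht, rfl⟩
      exact ⟨⟨⟨a, b⟩, t⟩, ⟨⟨ha, hb⟩, ht⟩, rfl⟩
    · rintro ⟨⟨⟨a, b⟩, t⟩, ⟨⟨ha, hb⟩, ht⟩, rfl⟩
      exact ⟨a, ha, b, hb, t, ht, rfl⟩
  rw [h]
  apply ((hA.prod hB).prod isCompact_Icc).image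
  fun_prop

theorem isCompact_convexHull_biUnion {κ : Type*} [DecidableEq κ] (s : Finset κ)
    (S : κ → Set V) (hS : ∀ i, Convex ℝ (S i)) (hk : ∀ i, IsCompact (S i))
    (hne : ∀ i, (S i).Nonempty) : IsCompact (convexHull ℝ (⋃ i ∈ s, S i)) := by
  induction s using Finset.induction_on with
  | empty => simp
  | insert a s ha ih =>
    rw [Finset.set_biUnion_insert, ← convexHull_convexHull_union_right]
    rcases s.eq_empty_or_nonempty with rfl | ⟨b, hb⟩
    · simpa [(hS a).convexHull_eq] using hk a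
    · have hne' : (convexHull ℝ (⋃ i ∈ s, S i)).Nonempty := by
        obtain ⟨x, hx⟩ := hne b
        exact ⟨x, subset_convexHull ℝ _ (mem_biUnion hb hx)⟩
      rw [(hS a).convexHull_union (convex_convexHull ℝ _) (hne a) hne']
      exact isCompact_convexJoin (hk a) ih

/-- If every point of a generating set is moved into the interior by one of the vectors `v a`, then
the convex hull is covered by as many translates of the interior. -/
theorem covered_of_illum {κ : Type*} [Fintype κ] {G : Set V}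
    (hk : IsCompact (convexHull ℝ G)) (v : κ → V)
    (h : ∀ z ∈ G, ∃ a, z + v a ∈ interior (convexHull ℝ G)) :
    Covered (Fintype.card κ) (convexHull ℝ G) := by
  classical
  set K := convexHull ℝ G with hKdef
  have hKc : Convex ℝ K := convex_convexHull ℝ G
  -- shrinking the step
  have hshrink : ∀ x ∈ K, ∀ a, ∀ s : ℝ, x + s • v a ∈ interior K → ∀ s' : ℝ, 0 < s' → s' ≤ s →
      x + s' • v a ∈ interior K := by
    intro x hx a s hs s' hs' hss
    have hspos : 0 < s := lt_of_lt_of_le hs' hss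
    have key : x + s' • v a = (s' / s) • (x + s • v a) + (1 - s' / s) • x := by
      rw [smul_add, smul_smul, div_mul_cancel₀ _ hspos.ne', sub_smul, one_smul]
      abel
    rw [key]
    apply hKc.combo_interior_self_mem_interior hs hx
    · positivity
    · rw [sub_nonneg, div_le_one hspos]; exact hss
    · ring
  -- all points
  have hall : K ⊆ {x | x ∈ K ∧ ∃ a, ∃ s : ℝ, 0 < s ∧ x + s • v a ∈ interior K} := by
    apply convexHull_min
    · intro z hz
      obtain ⟨a, ha⟩ := h z hz
      exact ⟨subset_convexHull ℝ G hz, a, 1, one_pos, by simpa using ha⟩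
    · intro x hx y hy p q hp hq hpq
      refine ⟨hKc hx.1 hy.1 hp hq hpq, ?_⟩
      rcases hp.eq_or_lt with hp0 | hp0
      · have hq1 : q = 1 := by linarith
        obtain ⟨a, s, hs, hys⟩ := hy.2
        exact ⟨a, s, hs, by simpa [← hp0, hq1] using hys⟩
      · obtain ⟨a, s, hs, hxs⟩ := hx.2
        refine ⟨a, p * s, by positivity, ?_⟩
        have key : p • x + q • y + (p * s) • v a = p • (x + s • v a) + q • y := by
          rw [smul_add, smul_smul]
          abel
        rw [key]
        exact hKc.combo_interior_self_mem_interior hxs hy.1 hp0 hq hpq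
  -- uniform step
  obtain ⟨t, ht⟩ := hk.elim_finite_subcover
    (fun m : ℕ => ⋃ a, (fun x => x + (1 / ((m : ℝ) + 1)) • v a) ⁻¹' interior K)
    (fun m => isOpen_iUnion fun a => isOpen_interior.preimage (by fun_prop))
    (by
      intro x hx
      obtain ⟨-, a, s, hs, hxs⟩ := hall hx
      obtain ⟨m, hm⟩ := exists_nat_one_div_lt hs
      refine mem_iUnion.2 ⟨m, mem_iUnion.2 ⟨a, ?_⟩⟩
      exact hshrink x hx a s hxs _ (by positivity) hm.le)
  set M := t.sup id with hM
  refine ⟨Finset.univ.image fun a => -((1 / ((M : ℝ) + 1)) • v a),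
    Finset.card_image_le.trans (by simp), ?_⟩
  intro x hx
  obtain ⟨m, hmt, hxm⟩ := mem_iUnion₂.1 (ht hx)
  obtain ⟨a, ha⟩ := mem_iUnion.1 hxm
  have hmM : m ≤ M := Finset.le_sup (f := id) hmt
  have hx' : x + (1 / ((M : ℝ) + 1)) • v a ∈ interior K := by
    apply hshrink x hx a _ ha
    · positivity
    · apply one_div_le_one_div_of_le
      · positivity
      · have : (m : ℝ) ≤ M := by exact_mod_cast hmM
        linarith
  refine mem_iUnion₂.2 ⟨_, Finset.mem_image_of_mem _ (Finset.mem_univ a), _, hx', ?_⟩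
  simp

/-- A uniform form of a covering by translates of the interior. -/
theorem uniform_cover {C : Set V} (hC : Convex ℝ C) (hk : IsCompact C) (h0 : 0 ∈ interior C)
    {N : ℕ} (hN : 1 ≤ N) (hcov : Covered N C) :
    ∃ (t : Fin N → V) (κ : ℝ), 0 < κ ∧ κ ≤ 1 ∧
      ∀ x ∈ C, ∃ a, ∀ θ : ℝ, 0 ≤ θ → θ ≤ 1 → gauge C (x - θ • t a) ≤ 1 - κ * θ := by
  classical
  obtain ⟨T, hT, hcov⟩ := hcov
  have hnhds : C ∈ 𝓝 (0 : V) := mem_interior_iff_mem_nhds.1 h0
  -- enumeration
  obtain ⟨t, ht⟩ : ∃ t : Fin N → V, ∀ x ∈ T, ∃ a, t a = x := by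
    let e := T.equivFin
    refine ⟨fun a => if h : a.val < T.card then (e.symm ⟨a.val, h⟩ : V) else 0, ?_⟩
    intro x hx
    refine ⟨⟨(e ⟨x, hx⟩).val, lt_of_lt_of_le (e ⟨x, hx⟩).2 hT⟩, ?_⟩
    simp
  have : Nonempty (Fin N) := ⟨⟨0, hN⟩⟩
  have hcont : Continuous (gauge C) := continuous_gauge hC hnhds
  set f : V → ℝ := fun x => Finset.univ.inf' Finset.univ_nonempty fun a => gauge C (x - t a)
    with hf
  have hfc : Continuous f := by
    apply Continuous.finset_inf'_apply
    intro a _
    exact hcont.comp (by fun_prop)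
  have hCne : C.Nonempty := ⟨0, interior_subset h0⟩
  obtain ⟨x₀, hx₀, hmax⟩ := hk.exists_isMaxOn hCne hfc.continuousOn
  have hf1 : ∀ x ∈ C, f x < 1 := by
    intro x hx
    obtain ⟨s, hs, y, hy, hyx⟩ := mem_iUnion₂.1 (hcov hx)
    obtain ⟨a, ha⟩ := ht s hs
    have h1 : gauge C (x - t a) < 1 := by
      have : x - t a = y := by
        rw [ha]; simp only at hyx; rw [← hyx]; abel
      rw [this]
      exact interior_subset_gauge_lt_one C hy
    exact lt_of_le_of_lt (Finset.inf'_le _ (Finset.mem_univ a)) h1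
  have hf0 : 0 ≤ f x₀ := by
    rw [hf]
    simp only [Finset.le_inf'_iff]
    intro a _
    exact gauge_nonneg _
  refine ⟨t, 1 - f x₀, by linarith [hf1 x₀ hx₀], by linarith, ?_⟩
  intro x hx
  obtain ⟨a, -, ha⟩ := Finset.exists_mem_eq_inf' (s := Finset.univ)
    (Finset.univ_nonempty (α := Fin N)) (fun a => gauge C (x - t a))
  refine ⟨a, fun θ h0θ h1θ => ?_⟩
  have hle : gauge C (x - t a) ≤ f x₀ := by
    have h1 : f x ≤ f x₀ := hmax hx
    rw [← ha]
    exact h1
  have key : x - θ • t a = (1 - θ) • x + θ • (x - t a) := by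
    rw [sub_smul, one_smul, smul_sub]; abel
  rw [key]
  calc gauge C ((1 - θ) • x + θ • (x - t a))
      ≤ gauge C ((1 - θ) • x) + gauge C (θ • (x - t a)) :=
        gauge_add_le hC (absorbent_nhds_zero hnhds) _ _
    _ = (1 - θ) * gauge C x + θ * gauge C (x - t a) := by
        rw [gauge_smul_of_nonneg (by linarith), gauge_smul_of_nonneg h0θ, smul_eq_mul,
          smul_eq_mul]
    _ ≤ (1 - θ) * 1 + θ * f x₀ := by
        apply add_le_add
        · exact mul_le_mul_of_nonneg_left (gauge_le_one_of_mem hx) (by linarith)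
        · exact mul_le_mul_of_nonneg_left hle h0θ
    _ = 1 - (1 - f x₀) * θ := by ring

end

end Pool.Agent.Helper55.BC
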