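import Pool.Agent.Helper55.BC.Comb

/-!
Families of complexes which satisfy the local condition
(helper file for MP_eba1ef_gt.BoxComplexes).
-/

namespace Pool.Agent.Helper55.BC

open Finset

variable {ι : Type*} [Fintype ι] [DecidableEq ι]

/-- All subsets with at most `r` elements. -/
theorem binaryOn_uniform {Δ : Set (Finset ι)} (hΔ : IsComplex Δ) {W : Finset ι} {r : ℕ}
    (hr : ∀ F ⊆ W, F ∈ Δ ↔ F.card ≤ r) : BinaryOn Δ W := by
  classical
  let e := Fintype.equivFin ι
  have hsingle : LinearIndependent (ZMod 2)
      (fun i : ι => (Pi.single (e i) 1 : Fin (Fintype.card ι) → ZMod 2)) := by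
    have h := (Pi.basisFun (ZMod 2) (Fin (Fintype.card ι))).linearIndependent
    have h2 := h.comp e e.injective
    convert h2 using 1
    funext i
    simp [Pi.basisFun_apply]
  by_cases hW : W.card ≤ r
  · refine ⟨Fintype.card ι, fun i => Pi.single (e i) 1, W, (hr W (Subset.refl W)).2 hW,
      Subset.refl W, ?_, ?_, ?_⟩
    · exact hsingle.comp (fun i : W => (i : ι)) Subtype.val_injective
    · intro i hi
      exact Submodule.subset_span ⟨i, hi, rfl⟩
    · intro F hF hFW
      refine ⟨∅, empty_subset _, ?_, ?_, ?_⟩
      · exact hsingle.comp (fun i : (∅ ∪ F ∩ W : Finset ι) => (i : ι)) Subtype.val_injective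
      · intro j hj _
        rw [sdiff_empty]
        have hsub : insert j F ⊆ W := insert_subset hj hFW
        exact (hr _ hsub).2 ((card_le_card hsub).trans hW)
      · intro j hj _ hj2
        exact absurd hj hj2
  · push Not at hW
    obtain ⟨B, hBW, hBr⟩ := exists_subset_card_eq hW.le
    set a : ι → Fin (Fintype.card ι) → ZMod 2 := fun i =>
      if i ∈ B then Pi.single (e i) 1 else ∑ b ∈ B, Pi.single (e b) 1 with ha
    have haB : ∀ i ∈ B, a i = Pi.single (e i) 1 := fun i hi => by simp [ha, hi]
    have haN : ∀ i, i ∉ B → a i = ∑ b ∈ B, Pi.single (e b) 1 := fun i hi => by simp [ha, hi]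
    refine ⟨Fintype.card ι, a, B, (hr B hBW).2 hBr.le, hBW, ?_, ?_, ?_⟩
    · have h := hsingle.comp (fun i : B => (i : ι)) Subtype.val_injective
      convert h using 1
      funext i
      exact haB i i.2
    · intro i hi
      by_cases hiB : i ∈ B
      · exact Submodule.subset_span ⟨i, hiB, rfl⟩
      · rw [haN i hiB]
        apply Submodule.sum_mem
        intro b hb
        exact Submodule.subset_span ⟨b, hb, haB b hb⟩
    · intro F hF hFW
      have hFr : F.card ≤ r := (hr F hFW).1 hF
      by_cases hFB : F ⊆ B
      · refine ⟨∅, empty_subset _, ?_, ?_, ?_⟩
        · have h := hsingle.comp (fun i : (∅ ∪ F ∩ B : Finset ι) => (i : ι))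
            Subtype.val_injective
          convert h using 1
          funext i
          apply haB
          have := i.2
          simp only [empty_union, mem_inter] at this
          exact this.2
        · intro j hj _
          rw [sdiff_empty]
          exact hΔ.1 B ((hr B hBW).2 hBr.le) _ (insert_subset hj hFB)
        · intro j hj _ _
          have : F \ (∅ ∪ B) = ∅ := by
            rw [empty_union]; exact sdiff_eq_empty_iff_subset.2 hFB
          rw [this]
          simpa using hΔ.2.1 j
      · obtain ⟨u, huF, huB⟩ := not_subset.1 hFB
        have hcard : (F.erase u).card < r := by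
          rw [card_erase_of_mem huF]
          have : 0 < F.card := card_pos.2 ⟨u, huF⟩
          omega
        refine ⟨{u}, ?_, ?_, ?_, ?_⟩
        · intro i hi
          rw [mem_singleton.1 hi]
          exact mem_sdiff.2 ⟨huF, huB⟩
        · -- independence
          obtain ⟨b₀, hb₀, hb₀F⟩ : ∃ b₀ ∈ B, b₀ ∉ F := by
            by_contra hcon
            push Not at hcon
            have h1 : insert u B ⊆ F := insert_subset huF hcon
            have h2 := card_le_card h1
            rw [card_insert_of_notMem huB] at h2
            omega
          have key : LinearIndepOn (ZMod 2) a (({u} ∪ F ∩ B : Finset ι) : Set ι) := by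
            rw [linearIndepOn_finset_iff]
            intro G hsum
            have huS : u ∉ F ∩ B := fun h => huB (mem_inter.1 h).2
            have hsplit : G u • a u + ∑ i ∈ F ∩ B, G i • a i = 0 := by
              rw [← hsum, sum_union (by simpa using huS)]
              simp
            -- the coordinate b₀
            have hcoord : ∀ b ∈ B, (G u • a u + ∑ i ∈ F ∩ B, G i • a i) (e b) =
                G u + if b ∈ F then G b else 0 := by
              intro b hb
              simp only [Pi.add_apply, Pi.smul_apply, Finset.sum_apply, smul_eq_mul]
              congr 1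
              · rw [haN u huB]
                simp only [Finset.sum_apply]
                rw [Finset.sum_eq_single b]
                · simp
                · intro b' _ hb'
                  simp [Pi.single_apply, e.injective.eq_iff, Ne.symm hb']
                · intro h; exact absurd hb h
              · have h1 : ∀ i ∈ F ∩ B, G i * a i (e b) = if i = b then G i else 0 := by
                  intro i hi
                  rw [haB i (mem_inter.1 hi).2]
                  by_cases hib : i = b
                  · subst hib; simp
                  · simp [Pi.single_apply, e.injective.eq_iff, hib, Ne.symm hib]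
                rw [Finset.sum_congr rfl h1, Finset.sum_ite_eq' (F ∩ B) b]
                by_cases hbF : b ∈ F
                · simp [hbF, hb]
                · simp [hbF]
            have hGu : G u = 0 := by
              have := hcoord b₀ hb₀
              rw [hsplit] at this
              simpa [hb₀F] using this.symm
            have hGb : ∀ b ∈ F ∩ B, G b = 0 := by
              intro b hb
              have := hcoord b (mem_inter.1 hb).2
              rw [hsplit, hGu] at this
              simpa [(mem_inter.1 hb).1] using this.symm
            intro i hi
            rcases mem_union.1 hi with h | h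
            · rw [mem_singleton.1 h]; exact hGu
            · exact hGb _ h
          exact key
        · intro j hj hjF
          have hsub : insert j (F \ {u}) ⊆ W :=
            insert_subset (hBW hj) (sdiff_subset.trans hFW)
          rw [hr _ hsub]
          rw [sdiff_singleton_eq_erase]
          exact (card_insert_le _ _).trans hcard
        · intro j hj _ _
          have hsub : insert j (F \ ({u} ∪ B)) ⊆ W :=
            insert_subset hj (sdiff_subset.trans hFW)
          rw [hr _ hsub]
          have h1 : F \ ({u} ∪ B) ⊆ F.erase u := by
            intro i hi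
            simp only [mem_sdiff, mem_union, mem_singleton, not_or] at hi
            exact mem_erase.2 ⟨hi.2.1, hi.1⟩
          have h2 := card_le_card h1
          have h3 := card_insert_le j (F \ ({u} ∪ B))
          omega

/-- Binary matroids. -/
theorem binaryOn_binary {Δ : Set (Finset ι)} (hΔ : IsComplex Δ) {W : Finset ι} {k : ℕ}
    (a : ι → Fin k → ZMod 2)
    (hW : ∀ F ⊆ W, F ∈ Δ ↔ LinearIndependent (ZMod 2) (fun i : F => a i)) :
    BinaryOn Δ W := by
  classical
  -- a maximal face inside `W`
  obtain ⟨B, hB, hmax⟩ := (W.powerset.filter (· ∈ Δ)).exists_max_image card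
    ⟨∅, by simp [hΔ.2.2]⟩
  simp only [mem_filter, mem_powerset] at hB hmax
  obtain ⟨hBW, hBΔ⟩ := hB
  have hBi := (hW B hBW).1 hBΔ
  refine ⟨k, a, B, hBΔ, hBW, hBi, ?_, ?_⟩
  · intro i hi
    by_cases hiB : i ∈ B
    · exact Submodule.subset_span ⟨i, hiB, rfl⟩
    · by_contra hcon
      have hins : insert i B ∈ Δ := by
        rw [hW _ (insert_subset hi hBW)]
        have h1 : LinearIndepOn (ZMod 2) a (B : Set ι) := hBi
        have h2 : LinearIndepOn (ZMod 2) a (insert i (B : Set ι)) := by
          rw [linearIndepOn_insert (by simpa using hiB)]
          exact ⟨h1, hcon⟩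
        have h3 : ((insert i B : Finset ι) : Set ι) = insert i (B : Set ι) := by simp
        have h4 : LinearIndepOn (ZMod 2) a ((insert i B : Finset ι) : Set ι) := by
          rw [h3]; exact h2
        exact h4
      have := hmax _ ⟨insert_subset hi hBW, hins⟩
      rw [card_insert_of_notMem hiB] at this
      omega
  · intro F hF hFW
    refine ⟨F \ B, Subset.refl _, ?_, ?_, ?_⟩
    · have h1 : F \ B ∪ F ∩ B = F := sdiff_union_inter F B
      rw [h1]
      exact (hW F hFW).1 hF
    · intro j hj _
      apply hΔ.1 B hBΔ
      apply insert_subset hj
      intro i hi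
      simp only [mem_sdiff, not_and, not_not] at hi
      exact hi.2 hi.1
    · intro j hj _ _
      have : F \ (F \ B ∪ B) = ∅ := by
        ext i
        simp only [mem_sdiff, mem_union, not_or, not_and, not_not, notMem_empty, iff_false]
        tauto
      rw [this]
      simpa using hΔ.2.1 j

end Pool.Agent.Helper55.BC
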