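import Pool.Agent.Helper55.BC.Comb
import Pool.Agent.Helper55.BC.Cov

/-!
Covering bodies built from blocks along a simplicial complex
(helper file for MP_eba1ef_gt.BoxComplexes).
-/

namespace Pool.Agent.Helper55.BC

open Set Metric Topology

variable {ι : Type*} [Fintype ι] [DecidableEq ι]
  {E : ι → Type*} [∀ i, NormedAddCommGroup (E i)] [∀ i, NormedSpace ℝ (E i)]

/-- The union of the products of the blocks over the faces of the complex. -/
def boxes (Δ : Set (Finset ι)) (C : ∀ i, Set (E i)) : Set (∀ i, E i) :=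
  {x | ∃ F ∈ Δ, (∀ i ∈ F, x i ∈ C i) ∧ ∀ i, i ∉ F → x i = 0}

omit [DecidableEq ι] [Fintype ι] in
theorem mem_of_gauge {V : Type*} [NormedAddCommGroup V] [NormedSpace ℝ V] {C : Set V}
    (hC : Convex ℝ C) (h0 : 0 ∈ interior C) {x : V} {r : ℝ} (hx : gauge C x < r) :
    (1 / r) • x ∈ C := by
  have hnhds : C ∈ 𝓝 (0 : V) := mem_interior_iff_mem_nhds.1 h0
  have hr : 0 < r := lt_of_le_of_lt (gauge_nonneg _) hx
  apply setOfPred_gauge_lt_one_subset_self hC (interior_subset h0) (absorbent_nhds_zero hnhds)
  change gauge C ((1 / r) • x) < 1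
  rw [gauge_smul_of_nonneg (by positivity), smul_eq_mul, one_div, inv_mul_lt_iff₀ hr, mul_one]
  exact hx

/-- The mixing lemma. -/
theorem mix {Δ : Set (Finset ι)} {C : ∀ i, Set (E i)}
    (hC : ∀ i, Convex ℝ (C i)) (h0 : ∀ i, 0 ∈ interior (C i))
    {F : Finset ι} (hF : F ∈ Δ) (pos : ι → ℕ)
    (hs : ∀ j, j ∉ F → insert j (F.filter fun i => pos j ≤ pos i) ∈ Δ)
    (β : ι → ℝ) (hβ : ∀ j, 0 < β j)
    (hβ1 : ∑ j ∈ Finset.univ.filter (fun j => j ∉ F), β j ≤ 1)
    {y : ∀ i, E i}
    (hy : ∀ i ∈ F, gauge (C i) (y i) <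
      1 - ∑ j ∈ Finset.univ.filter (fun j => j ∉ F ∧ pos i < pos j), β j)
    (hy' : ∀ j, j ∉ F → gauge (C j) (y j) < β j) :
    y ∈ convexHull ℝ (boxes Δ C) := by
  classical
  set μ : ι → ℝ := fun i =>
    1 - ∑ j ∈ Finset.univ.filter (fun j => j ∉ F ∧ pos i < pos j), β j with hμ
  have hμpos : ∀ i ∈ F, 0 < μ i := fun i hi => lt_of_le_of_lt (gauge_nonneg _) (hy i hi)
  have hin : ∀ i ∈ F, (1 / μ i) • y i ∈ C i := fun i hi => mem_of_gauge (hC i) (h0 i) (hy i hi)
  have hin' : ∀ j, j ∉ F → (1 / β j) • y j ∈ C j := fun j hj =>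
    mem_of_gauge (hC j) (h0 j) (hy' j hj)
  set z₀ : ∀ i, E i := fun i => if i ∈ F then (1 / μ i) • y i else 0 with hz₀
  set z : Option ι → ∀ i, E i := fun o => o.elim z₀ fun j =>
    if j ∈ F then z₀ else fun i => if i = j then (1 / β i) • y i else
      if i ∈ F ∧ pos j ≤ pos i then (1 / μ i) • y i else 0 with hz
  set w : Option ι → ℝ := fun o => o.elim
    (1 - ∑ j ∈ Finset.univ.filter (fun j => j ∉ F), β j)
    fun j => if j ∈ F then 0 else β j with hw
  have hz₀mem : z₀ ∈ convexHull ℝ (boxes Δ C) := by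
    apply subset_convexHull
    refine ⟨F, hF, fun i hi => ?_, fun i hi => ?_⟩
    · simp only [hz₀, hi, if_true]; exact hin i hi
    · simp only [hz₀, hi, if_false]
  have hzmem : ∀ o, z o ∈ convexHull ℝ (boxes Δ C) := by
    intro o
    cases o with
    | none => exact hz₀mem
    | some j =>
      by_cases hj : j ∈ F
      · simp only [hz, Option.elim, hj, if_true]; exact hz₀mem
      · simp only [hz, Option.elim, hj, if_false]
        apply subset_convexHull
        refine ⟨_, hs j hj, fun i hi => ?_, fun i hi => ?_⟩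
        · rcases Finset.mem_insert.1 hi with rfl | hi
          · simp only [if_true]; exact hin' i hj
          · have hi' := Finset.mem_filter.1 hi
            have hij : i ≠ j := fun h => hj (h ▸ hi'.1)
            simp only [hij, if_false, hi'.1, hi'.2, and_self, if_true]
            exact hin i hi'.1
        · have hij : i ≠ j := fun h => hi (by rw [h]; exact Finset.mem_insert_self _ _)
          have hi2 : ¬ (i ∈ F ∧ pos j ≤ pos i) := fun h =>
            hi (Finset.mem_insert_of_mem (Finset.mem_filter.2 h))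
          simp only [hij, if_false, hi2]
  have hw0 : ∀ o, 0 ≤ w o := by
    intro o
    cases o with
    | none => simp only [hw, Option.elim]; linarith
    | some j =>
      simp only [hw, Option.elim]
      split_ifs
      · exact le_rfl
      · exact (hβ j).le
  have hwsum : ∑ o, w o = 1 := by
    rw [Fintype.sum_option]
    simp only [hw, Option.elim]
    rw [Finset.sum_filter]
    have : ∀ j, (if j ∈ F then (0 : ℝ) else β j) = if j ∉ F then β j else 0 := by
      intro j; by_cases hj : j ∈ F <;> simp [hj]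
    simp only [this]
    ring
  have hyz : y = ∑ o, w o • z o := by
    funext i
    rw [Fintype.sum_option]
    simp only [Pi.add_apply, Pi.smul_apply, Finset.sum_apply, hw, hz, Option.elim]
    by_cases hi : i ∈ F
    · have e1 : ∀ j, (if j ∈ F then (0 : ℝ) else β j) •
          ((if j ∈ F then z₀ else fun i => if i = j then (1 / β i) • y i else
            if i ∈ F ∧ pos j ≤ pos i then (1 / μ i) • y i else 0) i) =
          (if j ∉ F ∧ pos j ≤ pos i then β j else 0) • ((1 / μ i) • y i) := by
        intro j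
        by_cases hj : j ∈ F
        · simp [hj]
        · have hij : i ≠ j := fun h => hj (h ▸ hi)
          by_cases hp : pos j ≤ pos i
          · simp [hj, hij, hi, hp]
          · simp [hj, hij, hi, hp]
      simp only [e1]
      rw [← Finset.sum_smul, ← Finset.sum_filter]
      have e2 : z₀ i = (1 / μ i) • y i := by simp [hz₀, hi]
      rw [e2, ← add_smul]
      have e3 : ∑ j ∈ Finset.univ.filter (fun j => j ∉ F), β j =
          ∑ j ∈ Finset.univ.filter (fun j => j ∉ F ∧ pos j ≤ pos i), β j +
          ∑ j ∈ Finset.univ.filter (fun j => j ∉ F ∧ pos i < pos j), β j := by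
        rw [← Finset.sum_filter_add_sum_filter_not (Finset.univ.filter (fun j => j ∉ F))
          (fun j => pos j ≤ pos i), Finset.filter_filter, Finset.filter_filter]
        simp only [not_le]
      have e4 : 1 - ∑ j ∈ Finset.univ.filter (fun j => j ∉ F), β j +
          ∑ j ∈ Finset.univ.filter (fun j => j ∉ F ∧ pos j ≤ pos i), β j = μ i := by
        rw [e3, hμ]; ring
      rw [e4, smul_smul, mul_one_div_cancel (hμpos i hi).ne', one_smul]
    · have e1 : ∀ j, (if j ∈ F then (0 : ℝ) else β j) •
          ((if j ∈ F then z₀ else fun i => if i = j then (1 / β i) • y i else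
            if i ∈ F ∧ pos j ≤ pos i then (1 / μ i) • y i else 0) i) =
          if j = i then y i else 0 := by
        intro j
        by_cases hj : j ∈ F
        · have hij : j ≠ i := fun h => hi (h ▸ hj)
          simp [hj, hij]
        · by_cases hij : j = i
          · subst hij
            simp only [hj, if_false, if_true]
            rw [smul_smul, mul_one_div_cancel (hβ j).ne', one_smul]
          · have hij' : i ≠ j := fun h => hij h.symm
            simp [hj, hij, hij', hi]
      simp only [e1]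
      have e2 : z₀ i = 0 := by simp [hz₀, hi]
      simp [e2]
  rw [hyz]
  exact (convex_convexHull ℝ _).sum_mem (fun o _ => hw0 o) hwsum (fun o _ => hzmem o)

/-- The mixing lemma with the interior. -/
theorem mix_interior {Δ : Set (Finset ι)} {C : ∀ i, Set (E i)}
    (hC : ∀ i, Convex ℝ (C i)) (h0 : ∀ i, 0 ∈ interior (C i))
    {F : Finset ι} (hF : F ∈ Δ) (pos : ι → ℕ)
    (hs : ∀ j, j ∉ F → insert j (F.filter fun i => pos j ≤ pos i) ∈ Δ)
    (β : ι → ℝ) (hβ : ∀ j, 0 < β j)
    (hβ1 : ∑ j ∈ Finset.univ.filter (fun j => j ∉ F), β j ≤ 1)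
    {y : ∀ i, E i}
    (hy : ∀ i ∈ F, gauge (C i) (y i) <
      1 - ∑ j ∈ Finset.univ.filter (fun j => j ∉ F ∧ pos i < pos j), β j)
    (hy' : ∀ j, j ∉ F → gauge (C j) (y j) < β j) :
    y ∈ interior (convexHull ℝ (boxes Δ C)) := by
  classical
  rw [mem_interior]
  refine ⟨{y | ∀ i, (i ∈ F → gauge (C i) (y i) <
      1 - ∑ j ∈ Finset.univ.filter (fun j => j ∉ F ∧ pos i < pos j), β j) ∧
      (i ∉ F → gauge (C i) (y i) < β i)}, ?_, ?_, ?_⟩
  · intro y hy
    exact mix hC h0 hF pos hs β hβ hβ1 (fun i hi => (hy i).1 hi) (fun i hi => (hy i).2 hi)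
  · simp only [ofPred_forall]
    apply isOpen_iInter_of_finite
    intro i
    have hg : Continuous fun y : ∀ i, E i => gauge (C i) (y i) :=
      (continuous_gauge (hC i) (mem_interior_iff_mem_nhds.1 (h0 i))).comp (continuous_apply i)
    by_cases hi : i ∈ F
    · simp only [hi, forall_const, not_true_eq_false, false_imp_iff, and_true]
      exact isOpen_lt hg continuous_const
    · simp only [hi, false_imp_iff, true_and, not_false_eq_true, forall_const]
      exact isOpen_lt hg continuous_const
  · exact fun i => ⟨hy i, hy' i⟩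

/-- The body is a convex body. -/
theorem body {Δ : Set (Finset ι)} (hΔ : IsComplex Δ) {C : ∀ i, Set (E i)}
    (hC : ∀ i, Convex ℝ (C i)) (hk : ∀ i, IsCompact (C i)) (h0 : ∀ i, 0 ∈ interior (C i)) :
    IsCompact (convexHull ℝ (boxes Δ C)) ∧ 0 ∈ interior (convexHull ℝ (boxes Δ C)) := by
  classical
  constructor
  · have e : boxes Δ C = ⋃ F ∈ (Set.toFinite Δ).toFinset,
        Set.pi univ fun i => if i ∈ F then C i else {0} := by
      ext x
      simp only [boxes, mem_ofPred_eq, Set.Finite.mem_toFinset, mem_iUnion, mem_pi, mem_univ,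
        forall_const, exists_prop]
      constructor
      · rintro ⟨F, hF, h1, h2⟩
        refine ⟨F, hF, fun i => ?_⟩
        by_cases hi : i ∈ F
        · simpa [hi] using h1 i hi
        · simpa [hi] using h2 i hi
      · rintro ⟨F, hF, h⟩
        refine ⟨F, hF, fun i hi => ?_, fun i hi => ?_⟩
        · simpa [hi] using h i
        · simpa [hi] using h i
    rw [e]
    apply isCompact_convexHull_biUnion
    · intro F
      apply convex_pi
      intro i _
      split_ifs
      · exact hC i
      · exact convex_singleton 0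
    · intro F
      apply isCompact_univ_pi
      intro i
      split_ifs
      · exact hk i
      · exact isCompact_singleton
    · intro F
      refine ⟨0, fun i _ => ?_⟩
      change (0 : E i) ∈ (if i ∈ F then C i else {0})
      split_ifs
      · exact interior_subset (h0 i)
      · rfl
  · refine mix_interior (F := ∅) hC h0 hΔ.2.2 (fun _ => 0) ?_
      (fun _ => 1 / (Fintype.card ι + 1 : ℝ)) (fun _ => by positivity) ?_ ?_ ?_
    · intro j _
      simpa using hΔ.2.1 j
    · simp only [Finset.notMem_empty, not_false_eq_true, Finset.filter_true, Finset.sum_const,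
        Finset.card_univ, nsmul_eq_mul]
      rw [mul_one_div, div_le_one (by positivity)]
      linarith
    · intro i hi
      exact absurd hi (Finset.notMem_empty i)
    · intro j _
      simp only [Pi.zero_apply, gauge_zero]
      positivity

/-- **The geometric theorem.** -/
theorem covered_blocks {Δ : Set (Finset ι)} (hΔ : IsComplex Δ)
    (hloc : ∀ W : Finset ι, (∀ i ∈ W, ∀ j ∈ W, ({i, j} : Finset ι) ∈ Δ) → BinaryOn Δ W)
    {C : ∀ i, Set (E i)}
    (hC : ∀ i, Convex ℝ (C i)) (hk : ∀ i, IsCompact (C i)) (h0 : ∀ i, 0 ∈ interior (C i))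
    (N : ι → ℕ) (hN : ∀ i, 2 ≤ N i) (hcov : ∀ i, Covered (N i) (C i)) :
    Covered (∏ i, N i) (convexHull ℝ (boxes Δ C)) := by
  classical
  choose t κ hκ0 hκ1 ht using fun i =>
    uniform_cover (hC i) (hk i) (h0 i) (by have := hN i; omega) (hcov i)
  -- the parities
  let φ : ∀ i, Fin (N i) → ZMod 2 := fun i a => (a.val : ZMod 2)
  have hφ : ∀ i, Function.Surjective (φ i) := by
    intro i b
    refine ⟨⟨b.val, lt_of_lt_of_le (ZMod.val_lt b) (hN i)⟩, ?_⟩
    simp [φ]
  obtain ⟨pos, -, hserve⟩ := serves_exists hΔ φ hφ hloc Finset.univ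
  -- the constants
  set n : ℝ := (Fintype.card ι : ℝ) with hn
  have hn0 : 0 ≤ n := by positivity
  set k₀ : ℝ := (1 + ∑ i, 1 / κ i)⁻¹ with hk₀
  have hsum0 : 0 ≤ ∑ i, 1 / κ i := Finset.sum_nonneg fun i _ => by
    have := hκ0 i; positivity
  have hk₀pos : 0 < k₀ := by rw [hk₀]; positivity
  have hk₀le : ∀ i, k₀ ≤ κ i := by
    intro i
    rw [hk₀, inv_le_comm₀ (by positivity) (hκ0 i), ← one_div]
    have : 1 / κ i ≤ ∑ i, 1 / κ i := Finset.single_le_sum (f := fun i => 1 / κ i)
      (fun i _ => (one_div_pos.2 (hκ0 i)).le) (Finset.mem_univ i)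
    linarith
  set ρ : ℝ := 1 + ∑ i, ∑ a, gauge (C i) (-(t i a)) with hρ
  have hρ1 : 1 ≤ ρ := by
    rw [hρ]
    have : 0 ≤ ∑ i, ∑ a, gauge (C i) (-(t i a)) :=
      Finset.sum_nonneg fun i _ => Finset.sum_nonneg fun a _ => gauge_nonneg _
    linarith
  have hρlt : ∀ i a, gauge (C i) (-(t i a)) < ρ := by
    intro i a
    have h1 : gauge (C i) (-(t i a)) ≤ ∑ a, gauge (C i) (-(t i a)) :=
      Finset.single_le_sum (f := fun a => gauge (C i) (-(t i a)))
        (fun a _ => gauge_nonneg _) (Finset.mem_univ a)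
    have h2 : ∑ a, gauge (C i) (-(t i a)) ≤ ∑ i, ∑ a, gauge (C i) (-(t i a)) :=
      Finset.single_le_sum (f := fun i => ∑ a, gauge (C i) (-(t i a)))
        (fun i _ => Finset.sum_nonneg fun a _ => gauge_nonneg _) (Finset.mem_univ i)
    rw [hρ]; linarith
  have hρ0 : 0 < ρ := by linarith
  set η : ℝ := min 1 (k₀ / (ρ * (n + 1))) with hη
  have hη0 : 0 < η := by rw [hη]; positivity
  have hη1 : η ≤ 1 := min_le_left _ _
  have hηk : n * (ρ * η) < k₀ := by
    have h1 : η ≤ k₀ / (ρ * (n + 1)) := min_le_right _ _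
    have h2 : η * (ρ * (n + 1)) ≤ k₀ := by
      rwa [le_div_iff₀ (by positivity)] at h1
    nlinarith [mul_pos hη0 hρ0]
  set ε : ℝ := 1 / (ρ * (n + 1)) with hε
  have hε0 : 0 < ε := by positivity
  have hε1 : ε ≤ 1 := by
    rw [hε, div_le_one (by positivity)]
    nlinarith
  have hεn : n * (ρ * ε) ≤ 1 := by
    rw [hε]
    have : n * (ρ * (1 / (ρ * (n + 1)))) = n / (n + 1) := by
      field_simp
    rw [this, div_le_one (by positivity)]
    linarith
  -- the directions
  let v : (∀ i, Fin (N i)) → ∀ i, E i := fun A i => -((ε * η ^ pos A i) • t i (A i))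
  have hcard : Fintype.card (∀ i, Fin (N i)) = ∏ i, N i := by simp
  rw [← hcard]
  apply covered_of_illum (body hΔ hC hk h0).1 v
  rintro z ⟨F, hF, hz1, hz2⟩
  have hzC : ∀ i, z i ∈ C i := by
    intro i
    by_cases hi : i ∈ F
    · exact hz1 i hi
    · rw [hz2 i hi]; exact interior_subset (h0 i)
  choose P hP using fun i => ht i (z i) (hzC i)
  obtain ⟨A, hA, hAs⟩ := hserve F hF (Finset.subset_univ F) P
  refine ⟨A, ?_⟩
  have hδ : ∀ i, 0 < η ^ pos A i := fun i => pow_pos hη0 _
  have hδ1 : ∀ i, η ^ pos A i ≤ 1 := fun i => pow_le_one₀ hη0.le hη1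
  refine mix_interior hC h0 hF (pos A) (fun j hj => hAs j (Finset.mem_univ j) hj)
    (fun j => ρ * (ε * η ^ pos A j)) (fun j => by have := hδ j; positivity) ?_ ?_ ?_
  · calc ∑ j ∈ Finset.univ.filter (fun j => j ∉ F), ρ * (ε * η ^ pos A j)
        ≤ ∑ j : ι, ρ * (ε * η ^ pos A j) :=
          Finset.sum_le_sum_of_subset_of_nonneg (Finset.filter_subset _ _)
            fun j _ _ => by have := hδ j; positivity
      _ ≤ ∑ _j : ι, ρ * ε := by
          apply Finset.sum_le_sum
          intro j _
          apply mul_le_mul_of_nonneg_left _ hρ0.le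
          exact mul_le_of_le_one_right hε0.le (hδ1 j)
      _ = n * (ρ * ε) := by simp [hn]
      _ ≤ 1 := hεn
  · intro i hi
    have hAi : A i = P i := hA i (Or.inl hi)
    have e1 : (z + v A) i = z i - (ε * η ^ pos A i) • t i (P i) := by
      simp only [Pi.add_apply, v, hAi]
      abel
    rw [e1]
    have h1 := hP i (ε * η ^ pos A i) (by have := hδ i; positivity)
      (mul_le_one₀ hε1 (hδ i).le (hδ1 i))
    have h2 : ∑ j ∈ Finset.univ.filter (fun j => j ∉ F ∧ pos A i < pos A j),
        ρ * (ε * η ^ pos A j) ≤ n * (ρ * (ε * (η * η ^ pos A i))) := by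
      calc ∑ j ∈ Finset.univ.filter (fun j => j ∉ F ∧ pos A i < pos A j),
            ρ * (ε * η ^ pos A j)
          ≤ ∑ _j ∈ Finset.univ.filter (fun j => j ∉ F ∧ pos A i < pos A j),
            ρ * (ε * (η * η ^ pos A i)) := by
            apply Finset.sum_le_sum
            intro j hj
            have hj' := (Finset.mem_filter.1 hj).2.2
            apply mul_le_mul_of_nonneg_left _ hρ0.le
            apply mul_le_mul_of_nonneg_left _ hε0.le
            rw [← pow_succ']
            exact pow_le_pow_of_le_one hη0.le hη1 hj'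
        _ ≤ n * (ρ * (ε * (η * η ^ pos A i))) := by
            rw [Finset.sum_const, nsmul_eq_mul]
            apply mul_le_mul_of_nonneg_right
            · rw [hn]
              exact_mod_cast Finset.card_le_univ _
            · have := hδ i; positivity
    have h3 : n * (ρ * (ε * (η * η ^ pos A i))) < κ i * (ε * η ^ pos A i) := by
      have : n * (ρ * (ε * (η * η ^ pos A i))) = (n * (ρ * η)) * (ε * η ^ pos A i) := by ring
      rw [this]
      apply mul_lt_mul_of_pos_right _ (mul_pos hε0 (hδ i))
      exact lt_of_lt_of_le hηk (hk₀le i)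
    linarith
  · intro j hj
    have e1 : (z + v A) j = (ε * η ^ pos A j) • (-(t j (A j))) := by
      simp only [Pi.add_apply, v, hz2 j hj, zero_add, smul_neg]
    rw [e1, gauge_smul_of_nonneg (by have := hδ j; positivity), smul_eq_mul,
      mul_comm ρ (ε * η ^ pos A j)]
    exact mul_lt_mul_of_pos_left (hρlt j (A j)) (mul_pos hε0 (hδ j))

end Pool.Agent.Helper55.BC
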