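import Pool.Agent.Helper55.BC.Geo

/-!
The case of segments: polytopes with vertices in `{-1, 0, 1} ^ n`
(helper file for MP_eba1ef_gt.BoxComplexes).
-/

namespace Pool.Agent.Helper55.BC

open Set Metric Topology

/-- Transport along a continuous linear equivalence. -/
theorem covered_image {V W : Type*} [NormedAddCommGroup V] [NormedSpace ℝ V]
    [NormedAddCommGroup W] [NormedSpace ℝ W] (e : V ≃L[ℝ] W) {N : ℕ} {K : Set V}
    (h : Covered N K) : Covered N (e '' K) := by
  classical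
  obtain ⟨T, hT, hK⟩ := h
  refine ⟨T.image e, Finset.card_image_le.trans hT, ?_⟩
  rintro _ ⟨x, hx, rfl⟩
  obtain ⟨t, ht, y, hy, hyx⟩ := mem_iUnion₂.1 (hK hx)
  refine mem_iUnion₂.2 ⟨e t, Finset.mem_image_of_mem _ ht, e y, ?_, ?_⟩
  · have h1 : interior (e '' K) = e '' interior K :=
      (e.toHomeomorph.image_interior K).symm
    rw [h1]
    exact mem_image_of_mem _ hy
  · simp only at hyx ⊢
    rw [← hyx, map_add]

/-- The segment is covered by two translates. -/
theorem covered_Icc : Covered 2 (Icc (-1 : ℝ) 1) := by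
  refine ⟨{-(1 / 2), 1 / 2}, Finset.card_le_two, ?_⟩
  intro x hx
  simp only [Finset.mem_insert, Finset.mem_singleton, iUnion_iUnion_eq_or_left,
    iUnion_iUnion_eq_left, interior_Icc]
  rcases le_or_gt x 0 with h | h
  · left
    refine ⟨x + 1 / 2, ⟨by linarith [hx.1], by linarith⟩, by ring⟩
  · right
    refine ⟨x - 1 / 2, ⟨by linarith, by linarith [hx.2]⟩, by ring⟩

/-- The real case. -/
theorem covered_real {n : ℕ} {Δ : Set (Finset (Fin n))} (hΔ : IsComplex Δ)
    (hloc : ∀ W : Finset (Fin n), (∀ i ∈ W, ∀ j ∈ W, ({i, j} : Finset (Fin n)) ∈ Δ) →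
      BinaryOn Δ W) (K : Set (EuclideanSpace ℝ (Fin n)))
    (hK : K = convexHull ℝ {x | ∃ F ∈ Δ, ∀ i, |x i| ≤ if i ∈ F then 1 else 0}) :
    IsCompact K ∧ 0 ∈ interior K ∧ Covered (2 ^ n) K := by
  classical
  let e : (Fin n → ℝ) ≃L[ℝ] EuclideanSpace ℝ (Fin n) := (EuclideanSpace.equiv (Fin n) ℝ).symm
  let C : Fin n → Set ℝ := fun _ => Icc (-1 : ℝ) 1
  have hC : ∀ i, Convex ℝ (C i) := fun _ => convex_Icc _ _
  have hk : ∀ i, IsCompact (C i) := fun _ => isCompact_Icc
  have h0 : ∀ i, 0 ∈ interior (C i) := fun _ => by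
    simp only [C, interior_Icc]
    constructor <;> norm_num
  have hcov := covered_blocks (E := fun _ => ℝ) hΔ hloc hC hk h0 (fun _ => 2)
    (fun _ => le_rfl) (fun _ => covered_Icc)
  obtain ⟨hb1, hb2⟩ := body (E := fun _ => ℝ) hΔ hC hk h0
  have hKe : K = e '' convexHull ℝ (boxes Δ C) := by
    rw [hK]
    have h1 : e '' convexHull ℝ (boxes Δ C) = convexHull ℝ (e '' boxes Δ C) :=
      (e : (Fin n → ℝ) →ₗ[ℝ] EuclideanSpace ℝ (Fin n)).image_convexHull (boxes Δ C)
    rw [h1]
    congr 1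
    ext x
    simp only [mem_ofPred_eq, mem_image, boxes]
    constructor
    · rintro ⟨F, hF, h⟩
      refine ⟨fun i => x i, ⟨F, hF, fun i hi => ?_, fun i hi => ?_⟩, ?_⟩
      · have := h i
        rw [if_pos hi] at this
        exact abs_le.1 this
      · have := h i
        rw [if_neg hi] at this
        exact abs_eq_zero.1 (le_antisymm this (abs_nonneg _))
      · rfl
    · rintro ⟨y, ⟨F, hF, h1, h2⟩, rfl⟩
      refine ⟨F, hF, fun i => ?_⟩
      have hei : (e y) i = y i := rfl
      rw [hei]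
      by_cases hi : i ∈ F
      · rw [if_pos hi]
        exact abs_le.2 (h1 i hi)
      · rw [if_neg hi, h2 i hi, abs_zero]
  rw [hKe]
  refine ⟨hb1.image e.continuous, ?_, ?_⟩
  · have h1 : interior (e '' convexHull ℝ (boxes Δ C)) = e '' interior (convexHull ℝ (boxes Δ C)) :=
      (e.toHomeomorph.image_interior _).symm
    rw [h1]
    exact ⟨0, hb2, map_zero e⟩
  · have h2 : (∏ _i : Fin n, 2) = 2 ^ n := by simp
    rw [← h2]
    exact covered_image e hcov

end Pool.Agent.Helper55.BC
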